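import Pool.Agent.Y690.PP.Stm

/-!
# Project PP, job PP-COMB: the hyperbolic quadratic form over the field of two elements
-/

set_option autoImplicit false

open Finset

namespace Pool.Agent.Y405.PP

open Pool.Agent.Y690.PP

variable {k : ℕ}

/-- the alternating form -/
def bb {k : ℕ} (u v : Ix k) : ZMod 2 := ∑ j, ((u j).1 * (v j).2 + (u j).2 * (v j).1)

theorem QQ_add (u v : Ix k) : QQ (u + v) = QQ u + QQ v + bb u v := by
  unfold QQ bb
  rw [← sum_add_distrib, ← sum_add_distrib]
  refine sum_congr rfl fun j _ => ?_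
  simp only [Pi.add_apply, Prod.fst_add, Prod.snd_add]
  ring

theorem bb_add_left (u v w : Ix k) : bb (u + v) w = bb u w + bb v w := by
  unfold bb
  rw [← sum_add_distrib]
  refine sum_congr rfl fun j _ => ?_
  simp only [Pi.add_apply, Prod.fst_add, Prod.snd_add]
  ring

theorem bb_symm (u v : Ix k) : bb u v = bb v u := by
  unfold bb
  refine sum_congr rfl fun j _ => ?_
  ring

theorem bb_add_right (u v w : Ix k) : bb u (v + w) = bb u v + bb u w := by
  rw [bb_symm, bb_add_left, bb_symm v, bb_symm w]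

theorem bb_smul_left (c : ZMod 2) (u w : Ix k) : bb (c • u) w = c * bb u w := by
  unfold bb
  rw [mul_sum]
  refine sum_congr rfl fun j _ => ?_
  simp only [Pi.smul_apply, Prod.smul_fst, Prod.smul_snd, smul_eq_mul]
  ring

theorem bb_smul_right (c : ZMod 2) (u w : Ix k) : bb u (c • w) = c * bb u w := by
  rw [bb_symm, bb_smul_left, bb_symm]

theorem two_eq (x : ZMod 2) : x + x = 0 := CharTwo.add_self_eq_zero x

theorem two_eq' (x : Ix k) : x + x = 0 := by
  funext j
  ext <;> exact two_eq _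

theorem bb_self (u : Ix k) : bb u u = 0 := by
  unfold bb
  refine sum_eq_zero fun j _ => ?_
  rw [mul_comm (u j).2, two_eq]

theorem QQ_zero : QQ (0 : Ix k) = 0 := by simp [QQ]

theorem z2 (x : ZMod 2) : x = 0 ∨ x = 1 := by
  revert x; decide

/-- the alternating form as a bilinear form -/
def BB (k : ℕ) : LinearMap.BilinForm (ZMod 2) (Ix k) :=
  LinearMap.mk₂ (ZMod 2) (fun u v => bb u v) bb_add_left bb_smul_left bb_add_right bb_smul_right

theorem BB_apply (u v : Ix k) : BB k u v = bb u v := rfl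

theorem BB_nd : (BB k).Nondegenerate := by
  have key : ∀ u : Ix k, (∀ v : Ix k, bb u v = 0) → u = 0 := by
    intro u hu
    funext j
    ext
    · have := hu (Pi.single j (0, 1))
      unfold bb at this
      rw [sum_eq_single j] at this
      · simpa using this
      · intro i _ hi
        simp [Pi.single_eq_of_ne hi]
      · simp
    · have := hu (Pi.single j (1, 0))
      unfold bb at this
      rw [sum_eq_single j] at this
      · simpa using this
      · intro i _ hi
        simp [Pi.single_eq_of_ne hi]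
      · simp
  refine ⟨fun u hu => key u fun v => hu v, fun u hu => key u fun v => ?_⟩
  rw [bb_symm]
  exact hu v

/-- isotropic sets are small -/
theorem iso_card (S : Finset (Ix k)) (h : ∀ u ∈ S, ∀ v ∈ S, bb u v = 0) : #S ≤ 2 ^ k := by
  classical
  set W : Submodule (ZMod 2) (Ix k) := Submodule.span (ZMod 2) (S : Set (Ix k)) with hW
  have h1 : ∀ u ∈ W, ∀ v ∈ S, bb u v = 0 := by
    intro u hu v hv
    induction hu using Submodule.span_induction with
    | mem x hx => exact h x hx v hv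
    | zero =>
      have := bb_add_left (0 : Ix k) 0 v
      simpa using this
    | add x y _ _ hx hy => rw [bb_add_left, hx, hy, add_zero]
    | smul c x _ hx => rw [bb_smul_left, hx, mul_zero]
  have h2 : ∀ u ∈ W, ∀ v ∈ W, bb v u = 0 := by
    intro u hu v hv
    induction hu using Submodule.span_induction with
    | mem x hx => exact h1 v hv x hx
    | zero =>
      have := bb_add_right v (0 : Ix k) 0
      simpa using this
    | add x y _ _ hx hy => rw [bb_add_right, hx, hy, add_zero]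
    | smul c x _ hx => rw [bb_smul_right, hx, mul_zero]
  have h3 : W ≤ (BB k).orthogonal W := by
    intro u hu
    rw [LinearMap.BilinForm.mem_orthogonal_iff]
    intro v hv
    exact h2 u hu v hv
  have h4 := LinearMap.BilinForm.finrank_orthogonal (B := BB k) BB_nd W
  have h5 := Submodule.finrank_mono h3
  have h6 : Module.finrank (ZMod 2) (Ix k) = 2 * k := by
    rw [Module.finrank_pi_fintype]
    simp [mul_comm]
  have h7 : Module.finrank (ZMod 2) W ≤ k := by omega
  have h8 : Nat.card W = 2 ^ Module.finrank (ZMod 2) W := by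
    rw [Nat.card_eq_fintype_card, Module.card_eq_pow_finrank (K := ZMod 2), ZMod.card]
  calc #S = Nat.card (S : Set (Ix k)) := by simp
    _ ≤ Nat.card W := Nat.card_mono (Set.toFinite _) Submodule.subset_span
    _ = 2 ^ Module.finrank (ZMod 2) W := h8
    _ ≤ 2 ^ k := Nat.pow_le_pow_right (by norm_num) h7

/-! ## Parts 1 and 2 -/

theorem bb_eq (u v : Ix k) : bb u v = QQ (u + v) + QQ u + QQ v := by
  rw [QQ_add]
  have h2 : (2 : ZMod 2) = 0 := rfl
  linear_combination (-(QQ u) - QQ v) * h2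

theorem tr_add (u v c : Ix k) : u + c + (v + c) = u + v := by
  rw [add_add_add_comm, two_eq', add_zero]

theorem tr_iso (L : Finset (Ix k)) (h : ∀ u ∈ L, ∀ v ∈ L, QQ (u + v) = 0) (c : Ix k) (hc : c ∈ L) :
    ∀ u ∈ L, ∀ v ∈ L, bb (u + c) (v + c) = 0 := by
  intro u hu v hv
  rw [bb_eq, tr_add, h u hu v hv, h u hu c hc, h v hv c hc]
  rfl

theorem part1 (L : Finset (Ix k)) (h : ∀ u ∈ L, ∀ v ∈ L, QQ (u + v) = 0) : #L ≤ 2 ^ k := by
  classical
  rcases L.eq_empty_or_nonempty with rfl | ⟨c, hc⟩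
  · simp
  · have h1 : #(L.image (· + c)) = #L := card_image_of_injective _ (add_left_injective c)
    rw [← h1]
    refine iso_card _ ?_
    intro u hu v hv
    obtain ⟨u', hu', rfl⟩ := mem_image.1 hu
    obtain ⟨v', hv', rfl⟩ := mem_image.1 hv
    exact tr_iso L h c hc u' hu' v' hv'

theorem part2a (L : Finset (Ix k)) (h : ∀ u ∈ L, ∀ v ∈ L, QQ (u + v) = 0) (hL : #L = 2 ^ k)
    (v : Ix k) (hv : v ∉ L) : ∃ u ∈ L, QQ (u + v) = 1 := by
  classical
  by_contra hcon
  push Not at hcon
  have h0 : ∀ u ∈ L, QQ (u + v) = 0 := fun u hu => (z2 _).resolve_right (hcon u hu)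
  have h1 := part1 (insert v L) (by
    intro a ha b hb
    rcases mem_insert.1 ha with ha2 | ha2 <;> rcases mem_insert.1 hb with hb2 | hb2
    · rw [ha2, hb2, two_eq', QQ_zero]
    · rw [ha2, add_comm]; exact h0 b hb2
    · rw [hb2]; exact h0 a ha2
    · exact h a ha2 b hb2)
  rw [card_insert_of_notMem hv] at h1
  omega

theorem part2b (L : Finset (Ix k)) (h : ∀ u ∈ L, ∀ v ∈ L, QQ (u + v) = 0) (hL : #L = 2 ^ k)
    (v : Ix k) (hv : v ∉ L) : ∃ u ∈ L, QQ (u + v) = 0 := by
  classical
  by_contra hcon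
  push Not at hcon
  have h0 : ∀ u ∈ L, QQ (u + v) = 1 := fun u hu => (z2 _).resolve_left (hcon u hu)
  have hne : L.Nonempty := card_pos.1 (by rw [hL]; positivity)
  obtain ⟨c, hc⟩ := hne
  have h1 : #((insert v L).image (· + c)) = #(insert v L) :=
    card_image_of_injective _ (add_left_injective c)
  have key : ∀ u ∈ L, bb (u + c) (v + c) = 0 := by
    intro u hu
    rw [bb_eq, tr_add, h0 u hu, h u hu c hc, add_comm v c, h0 c hc]
    rfl
  have h2 := iso_card ((insert v L).image (· + c)) (by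
    intro a ha b hb
    obtain ⟨a', ha', rfl⟩ := mem_image.1 ha
    obtain ⟨b', hb', rfl⟩ := mem_image.1 hb
    rcases mem_insert.1 ha' with ha2 | ha2 <;> rcases mem_insert.1 hb' with hb2 | hb2
    · rw [ha2, hb2]; exact bb_self _
    · rw [ha2, bb_symm]; exact key b' hb2
    · rw [hb2]; exact key a' ha2
    · exact tr_iso L h c hc a' ha2 b' hb2)
  rw [h1, card_insert_of_notMem hv] at h2
  omega

/-! ## Part 3 -/

/-- maximal totally singular sets -/
def MT (L : Finset (Ix k)) : Prop :=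
  (∀ u ∈ L, ∀ v ∈ L, QQ (u + v) = 0) ∧ #L = 2 ^ k ∧ ∀ u ∈ L, QQ u = 0

theorem MT.bb {L : Finset (Ix k)} (h : MT L) : ∀ u ∈ L, ∀ v ∈ L, bb u v = 0 := by
  intro u hu v hv
  rw [bb_eq, h.1 u hu v hv, h.2.2 u hu, h.2.2 v hv]
  rfl

theorem MT.max {L : Finset (Ix k)} (h : MT L) (v : Ix k) (hv : ∀ u ∈ L, PP.bb u v = 0) : v ∈ L := by
  classical
  by_contra hvL
  have h2 := iso_card (insert v L) (by
    intro a ha b hb
    rcases mem_insert.1 ha with ha2 | ha2 <;> rcases mem_insert.1 hb with hb2 | hb2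
    · rw [ha2, hb2]; exact bb_self _
    · rw [ha2, bb_symm]; exact hv b hb2
    · rw [hb2]; exact hv a ha2
    · exact h.bb a ha2 b hb2)
  rw [card_insert_of_notMem hvL, h.2.1] at h2
  omega

theorem MT.zero {L : Finset (Ix k)} (h : MT L) : (0 : Ix k) ∈ L :=
  h.max 0 fun u _ => by
    have := bb_add_right u (0 : Ix k) 0
    simpa using this

theorem MT.add {L : Finset (Ix k)} (h : MT L) {u v : Ix k} (hu : u ∈ L) (hv : v ∈ L) : u + v ∈ L :=
  h.max _ fun w hw => by rw [bb_add_right, h.bb w hw u hu, h.bb w hw v hv, add_zero]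

/-- one more coordinate -/
def cc (p : ZMod 2 × ZMod 2) (u : Ix k) : Ix (k + 1) := Fin.cons p u

theorem QQ_cc (p : ZMod 2 × ZMod 2) (u : Ix k) : QQ (cc p u) = p.1 * p.2 + QQ u := by
  unfold QQ cc
  rw [Fin.sum_univ_succ]
  simp

theorem bb_cc (p r : ZMod 2 × ZMod 2) (u v : Ix k) :
    bb (cc p u) (cc r v) = p.1 * r.2 + p.2 * r.1 + bb u v := by
  unfold bb cc
  rw [Fin.sum_univ_succ]
  simp

theorem cc_add (p r : ZMod 2 × ZMod 2) (u v : Ix k) : cc p u + cc r v = cc (p + r) (u + v) := by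
  funext j
  refine Fin.cases ?_ (fun i => ?_) j <;> simp [cc]

theorem cc_inj {p r : ZMod 2 × ZMod 2} {u v : Ix k} (h : cc p u = cc r v) : p = r ∧ u = v :=
  ⟨by simpa [cc] using congrFun h 0, by
    funext i
    simpa [cc] using congrFun h i.succ⟩

theorem cc_surj (x : Ix (k + 1)) : ∃ (a b : ZMod 2) (u : Ix k), x = cc (a, b) u :=
  ⟨(x 0).1, (x 0).2, fun i => x i.succ, by
    funext j
    refine Fin.cases ?_ (fun i => ?_) j <;> simp [cc]⟩

open Classical in
/-- first construction -/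
noncomputable def EE (L : Finset (Ix k)) : Finset (Ix (k + 1)) :=
  ((univ : Finset (ZMod 2)) ×ˢ L).image fun p => cc (p.1, 0) p.2

open Classical in
/-- second construction -/
noncomputable def FE (L : Finset (Ix k)) (v : Ix k) : Finset (Ix (k + 1)) :=
  ((univ : Finset (ZMod 2)) ×ˢ L).image fun p => cc (p.1 * QQ v + bb v p.2, p.1) (p.2 + p.1 • v)

open Classical in
/-- reduction -/
noncomputable def GG (M : Finset (Ix (k + 1))) : Finset (Ix k) :=
  univ.filter fun u => ∃ a : ZMod 2, cc (a, 0) u ∈ M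

theorem mem_EE {L : Finset (Ix k)} {a b : ZMod 2} {u : Ix k} :
    cc (a, b) u ∈ EE L ↔ b = 0 ∧ u ∈ L := by
  classical
  unfold EE
  rw [mem_image]
  constructor
  · rintro ⟨p, hp, h⟩
    obtain ⟨h1, h2⟩ := cc_inj h
    rw [Prod.ext_iff] at h1
    exact ⟨h1.2.symm, h2 ▸ (mem_product.1 hp).2⟩
  · rintro ⟨rfl, hu⟩
    exact ⟨(a, u), by simp [hu], rfl⟩

theorem card_EE (L : Finset (Ix k)) : #(EE L) = 2 * #L := by
  classical
  unfold EE
  rw [card_image_of_injOn, card_product, card_univ, ZMod.card]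
  intro p _ r _ h
  obtain ⟨h1, h2⟩ := cc_inj h
  rw [Prod.ext_iff] at h1
  exact Prod.ext h1.1 h2

theorem card_FE (L : Finset (Ix k)) (v : Ix k) : #(FE L v) = 2 * #L := by
  classical
  unfold FE
  rw [card_image_of_injOn, card_product, card_univ, ZMod.card]
  intro p _ r _ h
  obtain ⟨h1, h2⟩ := cc_inj h
  rw [Prod.ext_iff] at h1
  have h3 : p.1 = r.1 := h1.2
  rw [h3] at h2
  exact Prod.ext h3 (add_right_cancel h2)

theorem mem_GG {M : Finset (Ix (k + 1))} {u : Ix k} :
    u ∈ GG M ↔ ∃ a : ZMod 2, cc (a, 0) u ∈ M := by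
  classical
  simp [GG]

theorem MT_EE {L : Finset (Ix k)} (h : MT L) : MT (EE L) := by
  classical
  refine ⟨?_, ?_, ?_⟩
  · intro x hx y hy
    obtain ⟨a, b, u, rfl⟩ := cc_surj x
    obtain ⟨c, d, v, rfl⟩ := cc_surj y
    obtain ⟨rfl, hu⟩ := mem_EE.1 hx
    obtain ⟨rfl, hv⟩ := mem_EE.1 hy
    rw [cc_add, QQ_cc]
    simp [h.1 u hu v hv]
  · rw [card_EE, h.2.1, pow_succ, mul_comm]
  · intro x hx
    obtain ⟨a, b, u, rfl⟩ := cc_surj x
    obtain ⟨rfl, hu⟩ := mem_EE.1 hx
    rw [QQ_cc]
    simp [h.2.2 u hu]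

theorem QQ_smul (s : ZMod 2) (v : Ix k) : QQ (s • v) = s * QQ v := by
  rcases z2 s with rfl | rfl
  · simp [QQ_zero]
  · simp

theorem MT_FE {L : Finset (Ix k)} (h : MT L) (v : Ix k) : MT (FE L v) := by
  classical
  have hz : ∀ x ∈ FE L v, QQ x = 0 := by
    intro x hx
    unfold FE at hx
    obtain ⟨⟨s, u⟩, hp, rfl⟩ := mem_image.1 hx
    have hu : u ∈ L := (mem_product.1 hp).2
    simp only
    rw [QQ_cc, QQ_add, QQ_smul, bb_smul_right, h.2.2 u hu, bb_symm u v]
    rcases z2 s with rfl | rfl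
    · simp
    · simp only [one_mul, mul_one, zero_add]
      exact two_eq _
  refine ⟨?_, ?_, hz⟩
  · intro x hx y hy
    refine hz _ ?_
    unfold FE at hx hy ⊢
    obtain ⟨⟨s, u⟩, hp, rfl⟩ := mem_image.1 hx
    obtain ⟨⟨s', u'⟩, hp', rfl⟩ := mem_image.1 hy
    have hu : u ∈ L := (mem_product.1 hp).2
    have hu' : u' ∈ L := (mem_product.1 hp').2
    refine mem_image.2 ⟨(s + s', u + u'), by simp [h.add hu hu'], ?_⟩
    simp only
    rw [cc_add, bb_add_right]
    congr 1
    · ext
      · simp only [Prod.fst_add]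
        ring
      · simp
    · rw [add_smul]
      abel
  · rw [card_FE, h.2.1, pow_succ, mul_comm]

theorem mem_FE_self {L : Finset (Ix k)} (h : MT L) (v : Ix k) : cc (QQ v, 1) v ∈ FE L v := by
  classical
  unfold FE
  refine mem_image.2 ⟨(1, 0), by simp [h.zero], ?_⟩
  have : bb v (0 : Ix k) = 0 := by
    have := bb_add_right v (0 : Ix k) 0
    simpa using this
  simp [this]

theorem e_notMem_of {M : Finset (Ix (k + 1))} (h : MT M) {v : Ix k} (hv : cc (QQ v, 1) v ∈ M) :
    cc (1, 0) (0 : Ix k) ∉ M := by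
  intro he
  have h1 := h.bb _ he _ hv
  rw [bb_cc] at h1
  have h2 : bb (0 : Ix k) v = 0 := by
    have := bb_add_left (0 : Ix k) 0 v
    simpa using this
  rw [h2] at h1
  simp at h1

theorem sub_EE {M : Finset (Ix (k + 1))} (h : MT M) (he : cc (1, 0) (0 : Ix k) ∈ M) :
    M ⊆ EE (GG M) := by
  classical
  intro x hx
  obtain ⟨a, b, u, rfl⟩ := cc_surj x
  have h1 := h.bb _ he _ hx
  rw [bb_cc] at h1
  have h2 : bb (0 : Ix k) u = 0 := by
    have := bb_add_left (0 : Ix k) 0 u
    simpa using this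
  rw [h2] at h1
  have h3 : b = 0 := by simpa using h1
  subst h3
  exact mem_EE.2 ⟨rfl, mem_GG.2 ⟨a, hx⟩⟩

theorem sub_FE {M : Finset (Ix (k + 1))} (h : MT M) {v : Ix k} (hv : cc (QQ v, 1) v ∈ M) :
    M ⊆ FE (GG M) v := by
  classical
  intro x hx
  obtain ⟨a, b, u, rfl⟩ := cc_surj x
  unfold FE
  rcases z2 b with rfl | rfl
  · refine mem_image.2 ⟨(0, u), by simp [mem_GG]; exact ⟨a, hx⟩, ?_⟩
    have h1 := h.bb _ hv _ hx
    rw [bb_cc] at h1
    simp only [mul_zero, one_mul, zero_add] at h1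
    have h2 : bb v u = a := by
      have h3 : a + (a + bb v u) = a := by rw [h1, add_zero]
      rw [← add_assoc, two_eq, zero_add] at h3
      exact h3
    simp [h2]
  · have h0 := h.add hx hv
    rw [cc_add] at h0
    have h00 : cc (a + QQ v, 0) (u + v) ∈ M := by
      have : ((a, 1) + (QQ v, 1) : ZMod 2 × ZMod 2) = (a + QQ v, 0) := by
        ext
        · rfl
        · simp only [Prod.snd_add]
          exact two_eq 1
      rw [← this]
      exact h0
    refine mem_image.2 ⟨(1, u + v), by simp [mem_GG]; exact ⟨_, h00⟩, ?_⟩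
    have h1 := h.bb _ hv _ h00
    rw [bb_cc] at h1
    simp only [mul_zero, one_mul, zero_add] at h1
    have h2 : bb v (u + v) = a + QQ v := by
      have h3 : (a + QQ v) + ((a + QQ v) + bb v (u + v)) = a + QQ v := by rw [h1, add_zero]
      rw [← add_assoc, two_eq, zero_add] at h3
      exact h3
    simp only [one_mul, h2, one_smul, add_assoc, two_eq', add_zero]
    congr 2
    rw [add_comm a, ← add_assoc, two_eq, zero_add]

theorem ex_g {M : Finset (Ix (k + 1))} (h : MT M) (he : cc (1, 0) (0 : Ix k) ∉ M) :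
    ∃ v : Ix k, cc (QQ v, 1) v ∈ M := by
  classical
  by_contra hcon
  push Not at hcon
  refine he (h.max _ ?_)
  intro x hx
  obtain ⟨a, b, u, rfl⟩ := cc_surj x
  have h2 : bb u (0 : Ix k) = 0 := by
    have := bb_add_right u (0 : Ix k) 0
    simpa using this
  rw [bb_cc, h2]
  rcases z2 b with rfl | rfl
  · simp
  · exfalso
    refine hcon u ?_
    have h3 := h.2.2 _ hx
    rw [QQ_cc] at h3
    simp only [mul_one] at h3
    have h4 : QQ u = a := by
      have h5 : a + (a + QQ u) = a := by rw [h3, add_zero]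
      rw [← add_assoc, two_eq, zero_add] at h5
      exact h5
    rw [h4]
    exact hx

theorem MT_GG {M : Finset (Ix (k + 1))} (h : MT M) : MT (GG M) := by
  classical
  have h1 : ∀ u ∈ GG M, QQ u = 0 := by
    intro u hu
    obtain ⟨a, ha⟩ := mem_GG.1 hu
    have := h.2.2 _ ha
    rw [QQ_cc] at this
    simpa using this
  have h2 : ∀ u ∈ GG M, ∀ v ∈ GG M, QQ (u + v) = 0 := by
    intro u hu v hv
    obtain ⟨a, ha⟩ := mem_GG.1 hu
    obtain ⟨c, hc⟩ := mem_GG.1 hv
    have := h.1 _ ha _ hc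
    rw [cc_add, QQ_cc] at this
    simpa using this
  have h3 := part1 _ h2
  have h4 : 2 ^ (k + 1) ≤ 2 * #(GG M) := by
    rw [← h.2.1]
    by_cases he : cc (1, 0) (0 : Ix k) ∈ M
    · rw [← card_EE]
      exact card_le_card (sub_EE h he)
    · obtain ⟨v, hv⟩ := ex_g h he
      rw [← card_FE _ v]
      exact card_le_card (sub_FE h hv)
  refine ⟨h2, ?_, h1⟩
  rw [pow_succ] at h4
  omega

theorem EE_GG {M : Finset (Ix (k + 1))} (h : MT M) (he : cc (1, 0) (0 : Ix k) ∈ M) :
    EE (GG M) = M := by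
  refine (eq_of_subset_of_card_le (sub_EE h he) ?_).symm
  rw [(MT_EE (MT_GG h)).2.1, h.2.1]

theorem FE_GG {M : Finset (Ix (k + 1))} (h : MT M) {v : Ix k} (hv : cc (QQ v, 1) v ∈ M) :
    FE (GG M) v = M := by
  refine (eq_of_subset_of_card_le (sub_FE h hv) ?_).symm
  rw [(MT_FE (MT_GG h) v).2.1, h.2.1]

theorem GG_EE (L : Finset (Ix k)) : GG (EE L) = L := by
  ext u
  rw [mem_GG]
  constructor
  · rintro ⟨a, ha⟩
    exact (mem_EE.1 ha).2
  · intro hu
    exact ⟨0, mem_EE.2 ⟨rfl, hu⟩⟩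

theorem GG_FE (L : Finset (Ix k)) (v : Ix k) : GG (FE L v) = L := by
  classical
  ext u
  rw [mem_GG]
  constructor
  · rintro ⟨a, ha⟩
    unfold FE at ha
    obtain ⟨⟨s, w⟩, hp, h⟩ := mem_image.1 ha
    obtain ⟨h1, h2⟩ := cc_inj h
    rw [Prod.ext_iff] at h1
    have h3 : s = 0 := h1.2
    subst h3
    simp only [zero_smul, add_zero] at h2
    rw [← h2]
    exact (mem_product.1 hp).2
  · intro hu
    refine ⟨bb v u, ?_⟩
    unfold FE
    exact mem_image.2 ⟨(0, u), by simp [hu], by simp⟩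

open Classical in
theorem card_g {M : Finset (Ix (k + 1))} (h : MT M) (he : cc (1, 0) (0 : Ix k) ∉ M) :
    #((univ : Finset (Ix k)).filter fun v => cc (QQ v, 1) v ∈ M) = 2 ^ k := by
  obtain ⟨w, hw⟩ := ex_g h he
  rw [← (MT_GG h).2.1]
  have hone : (1 : ZMod 2) + 1 = 0 := two_eq 1
  refine card_bij (fun v _ => v + w) ?_ ?_ ?_
  · intro v hv
    have hv' := (mem_filter.1 hv).2
    have h1 := h.add hv' hw
    rw [cc_add] at h1
    refine mem_GG.2 ⟨QQ v + QQ w, ?_⟩
    have : ((QQ v, 1) + (QQ w, 1) : ZMod 2 × ZMod 2) = (QQ v + QQ w, 0) := by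
      ext
      · rfl
      · simp only [Prod.snd_add]
        exact two_eq 1
    rw [← this]
    exact h1
  · intro a _ b _ hab
    exact add_right_cancel hab
  · intro u hu
    obtain ⟨a, ha⟩ := mem_GG.1 hu
    refine ⟨u + w, ?_, by rw [add_assoc, two_eq', add_zero]⟩
    refine mem_filter.2 ⟨mem_univ _, ?_⟩
    have h1 := h.add ha hw
    rw [cc_add] at h1
    have h2 : cc (a + QQ w, 1) (u + w) ∈ M := by
      have : ((a, 0) + (QQ w, 1) : ZMod 2 × ZMod 2) = (a + QQ w, 1) := by
        ext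
        · rfl
        · simp
      rw [← this]
      exact h1
    have h3 := h.2.2 _ h2
    rw [QQ_cc] at h3
    simp only [mul_one] at h3
    have h4 : QQ (u + w) = a + QQ w := by
      have h5 : (a + QQ w) + ((a + QQ w) + QQ (u + w)) = a + QQ w := by rw [h3, add_zero]
      rw [← add_assoc, two_eq, zero_add] at h5
      exact h5
    rw [h4]
    exact h2

open Classical in
/-- the set of all maximal totally singular sets -/
noncomputable def TS (k : ℕ) : Finset (Finset (Ix k)) := univ.filter fun L => MT L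

open Classical in
theorem card_TS_succ (k : ℕ) : #(TS (k + 1)) = #(TS k) * (2 ^ k + 1) := by
  have hA : #((TS (k + 1)).filter fun M => cc (1, 0) (0 : Ix k) ∈ M) = #(TS k) := by
    refine card_bij (fun M _ => GG M) ?_ ?_ ?_
    · intro M hM
      simp only [TS, mem_filter, mem_univ, true_and] at hM ⊢
      exact MT_GG hM.1
    · intro M hM M' hM' hMM
      simp only [TS, mem_filter, mem_univ, true_and] at hM hM'
      rw [← EE_GG hM.1 hM.2, ← EE_GG hM'.1 hM'.2, hMM]
    · intro L hL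
      simp only [TS, mem_filter, mem_univ, true_and] at hL
      refine ⟨EE L, ?_, GG_EE L⟩
      simp only [TS, mem_filter, mem_univ, true_and]
      exact ⟨MT_EE hL, mem_EE.2 ⟨rfl, hL.zero⟩⟩
  have hB : #((TS (k + 1)).filter fun M => cc (1, 0) (0 : Ix k) ∉ M) * 2 ^ k =
      #(TS k) * 2 ^ (2 * k) := by
    have h1 : #(((TS (k + 1)) ×ˢ (univ : Finset (Ix k))).filter
        fun p => cc (QQ p.2, 1) p.2 ∈ p.1) = #(TS k ×ˢ (univ : Finset (Ix k))) := by
      refine card_bij (fun p _ => (GG p.1, p.2)) ?_ ?_ ?_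
      · rintro ⟨M, v⟩ hp
        simp only [TS, mem_filter, mem_product, mem_univ, true_and, and_true] at hp ⊢
        exact MT_GG hp.1
      · rintro ⟨M, v⟩ hp ⟨M', v'⟩ hp' hh
        simp only [TS, mem_filter, mem_product, mem_univ, true_and, and_true] at hp hp'
        simp only [Prod.mk.injEq] at hh
        obtain ⟨hh1, rfl⟩ := hh
        rw [← FE_GG hp.1 hp.2, ← FE_GG hp'.1 hp'.2, hh1]
      · rintro ⟨L, v⟩ hp
        simp only [TS, mem_filter, mem_product, mem_univ, true_and, and_true] at hp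
        refine ⟨(FE L v, v), ?_, ?_⟩
        · simp only [TS, mem_filter, mem_product, mem_univ, true_and, and_true]
          exact ⟨MT_FE hp v, mem_FE_self hp v⟩
        · simp only [GG_FE]
    have h2 : #(TS k ×ˢ (univ : Finset (Ix k))) = #(TS k) * 2 ^ (2 * k) := by
      rw [card_product, card_univ]
      congr 1
      simp [pow_mul]
    have h3 : #(((TS (k + 1)) ×ˢ (univ : Finset (Ix k))).filter
        fun p => cc (QQ p.2, 1) p.2 ∈ p.1) =
        ∑ M ∈ TS (k + 1), #((univ : Finset (Ix k)).filter fun v => cc (QQ v, 1) v ∈ M) := by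
      rw [card_filter, sum_product]
      refine sum_congr rfl fun M _ => ?_
      rw [card_filter]
    rw [← h2, ← h1, h3, ← sum_filter_add_sum_filter_not (TS (k + 1))
      (fun M => cc (1, 0) (0 : Ix k) ∉ M)]
    rw [sum_congr rfl (g := fun _ => 2 ^ k), sum_const, smul_eq_mul]
    · rw [sum_eq_zero, add_zero]
      intro M hM
      simp only [TS, mem_filter, mem_univ, true_and, not_not] at hM
      rw [card_eq_zero, filter_eq_empty_iff]
      intro v _ hv
      exact e_notMem_of hM.1 hv hM.2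
    · intro M hM
      simp only [TS, mem_filter, mem_univ, true_and] at hM
      exact card_g hM.1 hM.2
  have hC : #((TS (k + 1)).filter fun M => cc (1, 0) (0 : Ix k) ∉ M) = #(TS k) * 2 ^ k := by
    have hp : 0 < 2 ^ k := by positivity
    refine Nat.eq_of_mul_eq_mul_right hp ?_
    rw [hB, two_mul, pow_add, mul_assoc]
  rw [← card_filter_add_card_filter_not (s := TS (k + 1)) (fun M => cc (1, 0) (0 : Ix k) ∈ M), hA, hC]
  ring

theorem card_TS (k : ℕ) : #(TS k) = ∏ i ∈ range k, (2 ^ i + 1) := by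
  classical
  induction k with
  | zero =>
    rw [range_zero, prod_empty, card_eq_one]
    refine ⟨{0}, ?_⟩
    ext L
    simp only [TS, mem_filter, mem_univ, true_and, mem_singleton]
    constructor
    · intro h
      obtain ⟨a, ha⟩ := card_eq_one.1 h.2.1
      rw [ha, Subsingleton.elim a 0]
    · rintro rfl
      refine ⟨?_, by simp, ?_⟩
      · intro u _ v _
        rw [Subsingleton.elim (u + v) 0, QQ_zero]
      · intro u _
        rw [Subsingleton.elim u 0, QQ_zero]
  | succ k ih => rw [card_TS_succ, ih, prod_range_succ]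

/-- **PP-COMB**. -/
theorem t_COMB : SCOMB := by
  intro k
  refine ⟨part1, ?_, ?_⟩
  · intro L h hL
    refine ⟨fun v hv => ⟨part2b L h hL v hv, part2a L h hL v hv⟩, fun _ => ?_⟩
    by_cases h0 : (0 : Ix k) ∈ L
    · exact ⟨0, h0, QQ_zero⟩
    · obtain ⟨u, hu, hQ⟩ := part2b L h hL 0 h0
      exact ⟨u, hu, by simpa using hQ⟩
  · exact card_TS k

end Pool.Agent.Y405.PP
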